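import Pool.Agent.Lib.MP_0fb7ac_an.Defs

/-!
The explicit conformal factor and its Laplacian.
-/

namespace Pool.Agent.Lib.MP_0fb7ac_an

open MeasureTheory Set InnerProductSpace
open scoped Laplacian

/-- one variable calculus, first derivative -/
theorem line_deriv1 {c k : ℝ} {m m1 n n1 : ℝ → ℝ} (hm : ∀ s, 0 < m s)
    (hR : ∀ s, 0 < √(m s) + k * n s)
    (dm : ∀ s, HasDerivAt m (m1 s) s) (dn : ∀ s, HasDerivAt n (n1 s) s) (s : ℝ) :
    HasDerivAt (fun s => c - (1 / 4) * Real.log (m s) - Real.log (√(m s) + k * n s))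
      (-(m1 s) / (4 * m s) - (m1 s / (2 * √(m s)) + k * n1 s) / (√(m s) + k * n s)) s := by
  have h1 := (dm s).log (hm s).ne'
  have h2 := (dm s).sqrt (hm s).ne'
  have h3 := (h2.add ((dn s).const_mul k)).log (hR s).ne'
  have h4 := ((hasDerivAt_const s c).sub (h1.const_mul (1 / 4))).sub h3
  convert! h4 using 1
  simp only [Pi.add_apply]
  have := (hm s).ne'
  field_simp
  ring

/-- one variable calculus, second derivative -/
theorem line_deriv2 {k : ℝ} {m m1 n n1 : ℝ → ℝ} {m2 n2 a : ℝ} (hm : ∀ s, 0 < m s)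
    (hR : ∀ s, 0 < √(m s) + k * n s)
    (dm : ∀ s, HasDerivAt m (m1 s) s) (dn : ∀ s, HasDerivAt n (n1 s) s)
    (dm1 : HasDerivAt m1 m2 a) (dn1 : HasDerivAt n1 n2 a) :
    HasDerivAt (fun s => -(m1 s) / (4 * m s) -
        (m1 s / (2 * √(m s)) + k * n1 s) / (√(m s) + k * n s))
      (-(1 / 4) * (m2 / m a - (m1 a) ^ 2 / (m a) ^ 2)
        - ((m2 / (2 * √(m a)) - (m1 a) ^ 2 / (4 * √(m a) ^ 3) + k * n2) * (√(m a) + k * n a)
          - ((m1 a) ^ 2 / (4 * √(m a) ^ 2) + k * (m1 a * n1 a) / √(m a) + k ^ 2 * (n1 a) ^ 2))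
          / (√(m a) + k * n a) ^ 2) a := by
  have hq : 0 < √(m a) := Real.sqrt_pos.mpr (hm a)
  have hqq : √(m a) ^ 2 = m a := Real.sq_sqrt (hm a).le
  have h2 := (dm a).sqrt (hm a).ne'
  have h3 := h2.add ((dn a).const_mul k)
  have h5 := (dm1.neg).div ((dm a).const_mul 4) (by have := hm a; positivity)
  have h6 := (dm1.div (h2.const_mul 2) (by positivity)).add (dn1.const_mul k)
  have h7 := h5.sub (h6.div h3 (hR a).ne')
  convert! h7 using 1
  simp only [Pi.add_apply, Pi.div_apply, Pi.neg_apply]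
  have h8 := (hR a).ne'
  set q := √(m a)
  rw [← hqq]
  field_simp
  ring

/-- directional derivative in terms of a one variable derivative -/
theorem fderiv_single_zero {f : Plane → ℝ} {F : ℝ → ℝ → ℝ} {x : Plane} {F' : ℝ}
    (hf : DifferentiableAt ℝ f x) (hF : ∀ y, f y = F (y 0) (y 1))
    (h : HasDerivAt (fun s => F s (x 1)) F' (x 0)) :
    fderiv ℝ f x (EuclideanSpace.single 0 1) = F' := by
  let c : ℝ → Plane := fun s => x + s • EuclideanSpace.single 0 1
  have hc : HasDerivAt c (EuclideanSpace.single 0 1) 0 := by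
    have := ((hasDerivAt_id (0 : ℝ)).smul_const (EuclideanSpace.single 0 1 : Plane)).const_add x
    rw [one_smul] at this
    exact this
  have hx : c 0 = x := by simp [c]
  have h1 : HasDerivAt (f ∘ c) (fderiv ℝ f x (EuclideanSpace.single 0 1)) 0 := by
    refine HasFDerivAt.comp_hasDerivAt (0 : ℝ) ?_ hc
    rw [hx]
    exact hf.hasFDerivAt
  have h2 : HasDerivAt (f ∘ c) F' 0 := by
    have h3 : (f ∘ c) = fun s => (fun s => F s (x 1)) (x 0 + s) := by
      funext s
      simp [c, hF]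
    rw [h3]
    refine HasDerivAt.comp_const_add (f := fun s => F s (x 1)) (x 0) 0 ?_
    simpa using h
  exact h1.unique h2

theorem fderiv_single_one {f : Plane → ℝ} {F : ℝ → ℝ → ℝ} {x : Plane} {F' : ℝ}
    (hf : DifferentiableAt ℝ f x) (hF : ∀ y, f y = F (y 0) (y 1))
    (h : HasDerivAt (fun s => F (x 0) s) F' (x 1)) :
    fderiv ℝ f x (EuclideanSpace.single 1 1) = F' := by
  let c : ℝ → Plane := fun s => x + s • EuclideanSpace.single 1 1
  have hc : HasDerivAt c (EuclideanSpace.single 1 1) 0 := by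
    have := ((hasDerivAt_id (0 : ℝ)).smul_const (EuclideanSpace.single 1 1 : Plane)).const_add x
    rw [one_smul] at this
    exact this
  have hx : c 0 = x := by simp [c]
  have h1 : HasDerivAt (f ∘ c) (fderiv ℝ f x (EuclideanSpace.single 1 1)) 0 := by
    refine HasFDerivAt.comp_hasDerivAt (0 : ℝ) ?_ hc
    rw [hx]
    exact hf.hasFDerivAt
  have h2 : HasDerivAt (f ∘ c) F' 0 := by
    have h3 : (f ∘ c) = fun s => (fun s => F (x 0) s) (x 1 + s) := by
      funext s
      simp [c, hF]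
    rw [h3]
    refine HasDerivAt.comp_const_add (f := fun s => F (x 0) s) (x 1) 0 ?_
    simpa using h
  exact h1.unique h2

/-- second directional derivative as iterated line derivative -/
theorem iteratedFDeriv_two_diag {f : Plane → ℝ} (hf : ContDiff ℝ 2 f) (x v : Plane) :
    iteratedFDeriv ℝ 2 f x ![v, v] = fderiv ℝ (fun y => fderiv ℝ f y v) x v := by
  rw [iteratedFDeriv_two_apply]
  have h1 : DifferentiableAt ℝ (fderiv ℝ f) x :=
    (hf.fderiv_right (m := 1) (by norm_num)).differentiable (by norm_num) x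
  have h2 := h1.hasFDerivAt.clm_apply (hasFDerivAt_const v x)
  have h3 : HasFDerivAt (fun y => fderiv ℝ f y v)
      ((fderiv ℝ (fderiv ℝ f) x).flip v) x := by
    convert! h2 using 1
    ext w
    simp
  rw [h3.fderiv]
  simp

/-- the Laplacian in coordinates -/
theorem laplacian_coord {f : Plane → ℝ} (hf : ContDiff ℝ 2 f) {F F1 F2 : ℝ → ℝ → ℝ}
    (hF : ∀ y, f y = F (y 0) (y 1))
    (h1 : ∀ a b, HasDerivAt (fun s => F s b) (F1 a b) a)
    (h2 : ∀ a b, HasDerivAt (fun s => F a s) (F2 a b) b)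
    {x : Plane} {F11 F22 : ℝ}
    (h11 : HasDerivAt (fun s => F1 s (x 1)) F11 (x 0))
    (h22 : HasDerivAt (fun s => F2 (x 0) s) F22 (x 1)) :
    (Laplacian.laplacian f) x = F11 + F22 := by
  rw [laplacian_eq_iteratedFDeriv_orthonormalBasis f (EuclideanSpace.basisFun (Fin 2) ℝ)]
  simp only [Fin.sum_univ_two, EuclideanSpace.basisFun_apply]
  rw [iteratedFDeriv_two_diag hf, iteratedFDeriv_two_diag hf]
  have hfd : Differentiable ℝ f := hf.differentiable (by norm_num)
  have hd : ∀ v : Plane, Differentiable ℝ (fun y => fderiv ℝ f y v) := by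
    intro v
    have : ContDiff ℝ 1 (fderiv ℝ f) := hf.fderiv_right (m := 1) (by norm_num)
    exact (this.clm_apply contDiff_const).differentiable (by norm_num)
  congr 1
  · refine fderiv_single_zero (F := F1) (hd _ x) ?_ h11
    intro y
    exact fderiv_single_zero (hfd y) hF (h1 _ _)
  · refine fderiv_single_one (F := F2) (hd _ x) ?_ h22
    intro y
    exact fderiv_single_one (hfd y) hF (h2 _ _)

end Pool.Agent.Lib.MP_0fb7ac_an
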