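import Mathlib

/-!
Piecewise C^1 curves, conformal length, distance and diameter for a metric `e^{2u} δ` on the plane.
-/

namespace Pool.Agent.Lib.MP_0fb7ac_an

open MeasureTheory Set

/-- The Euclidean plane. -/
abbrev Plane : Type := EuclideanSpace ℝ (Fin 2)

/-- `γ` is a piecewise C^1 curve on `[0,1]`: it is continuous on `[0,1]`, and there is a finite set
`s` of break points such that `γ` is C^1 (up to the end points) on every closed subinterval of
`[0,1]` whose interior contains no point of `s`. -/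
def IsPiecewiseC1 (γ : ℝ → Plane) : Prop :=
  ContinuousOn γ (Icc 0 1) ∧ ∃ s : Finset ℝ, ∀ a b : ℝ, 0 ≤ a → a < b → b ≤ 1 →
    (∀ t ∈ s, t ∉ Ioo a b) → ContDiffOn ℝ 1 γ (Icc a b)

/-- The length `∫_0^1 e^{u(γ(t))} |γ'(t)| dt` of `γ` for the metric `e^{2u} δ`. -/
noncomputable def gLength (u : Plane → ℝ) (γ : ℝ → Plane) : ENNReal :=
  ∫⁻ t in Icc (0 : ℝ) 1, ENNReal.ofReal (Real.exp (u (γ t)) * ‖deriv γ t‖)

/-- The distance `d_g(x,y)`: infimum of the lengths of the piecewise C^1 curves from `x` to `y`. -/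
noncomputable def gDist (u : Plane → ℝ) (x y : Plane) : ENNReal :=
  ⨅ (γ : ℝ → Plane) (_ : IsPiecewiseC1 γ) (_ : γ 0 = x) (_ : γ 1 = y), gLength u γ

/-- The diameter of the plane for the distance `d_g`. -/
noncomputable def gDiam (u : Plane → ℝ) : ENNReal :=
  ⨆ (x : Plane) (y : Plane), gDist u x y

/-- Sanity check: a C^1 curve is piecewise C^1. -/
theorem IsPiecewiseC1.of_contDiff {γ : ℝ → Plane} (hγ : ContDiff ℝ 1 γ) : IsPiecewiseC1 γ :=
  ⟨hγ.continuous.continuousOn, ∅, fun _ _ _ _ _ _ => hγ.contDiffOn⟩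

/-- Sanity check: for continuous `u` the distance between any two points is finite. -/
theorem gDist_lt_top {u : Plane → ℝ} (hu : Continuous u) (x y : Plane) : gDist u x y < ⊤ := by
  let γ : ℝ → Plane := fun t => x + t • (y - x)
  have hγ : ContDiff ℝ 1 γ := by
    unfold γ
    fun_prop
  have h1 : gDist u x y ≤ gLength u γ := by
    unfold gDist
    refine iInf_le_of_le γ (iInf_le_of_le (IsPiecewiseC1.of_contDiff hγ) ?_)
    refine iInf_le_of_le (by simp [γ]) (iInf_le_of_le (by simp [γ]) le_rfl)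
  refine lt_of_le_of_lt h1 ?_
  unfold gLength
  have hc : Continuous (fun t => Real.exp (u (γ t)) * ‖deriv γ t‖) := by
    have h2 : Continuous (deriv γ) := hγ.continuous_deriv le_rfl
    have h3 := hγ.continuous
    fun_prop
  have hi : IntegrableOn (fun t => Real.exp (u (γ t)) * ‖deriv γ t‖) (Icc 0 1) :=
    hc.continuousOn.integrableOn_compact isCompact_Icc
  exact hi.lintegral_lt_top

end Pool.Agent.Lib.MP_0fb7ac_an
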