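import Pool.Agent.Lib.MP_0fb7ac_an.Calc

/-!
The explicit conformal factor `u = log (2e) - (1/4) log M - log (√M + e^2 |z|^2)`,
`M = |z^2 - 1|^2 + e^8 |z|^4`.
-/

namespace Pool.Agent.Lib.MP_0fb7ac_an

open MeasureTheory Set InnerProductSpace
open scoped Laplacian

/-- `|z|^2` -/
def N2 (a b : ℝ) : ℝ := a ^ 2 + b ^ 2

/-- `|z^2-1|^2 + h |z|^4` -/
def M2 (h a b : ℝ) : ℝ := (a ^ 2 - b ^ 2 - 1) ^ 2 + 4 * a ^ 2 * b ^ 2 + h * (a ^ 2 + b ^ 2) ^ 2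

/-- the conformal factor in coordinates -/
noncomputable def U2 (c k h a b : ℝ) : ℝ :=
  c - (1 / 4) * Real.log (M2 h a b) - Real.log (√(M2 h a b) + k * N2 a b)

theorem M2_pos {h : ℝ} (hh : 0 < h) (a b : ℝ) : 0 < M2 h a b := by
  unfold M2
  by_cases hb : a ^ 2 + b ^ 2 = 0
  · have ha : a ^ 2 = 0 := by nlinarith [sq_nonneg a, sq_nonneg b]
    have hb' : b ^ 2 = 0 := by nlinarith [sq_nonneg a, sq_nonneg b]
    rw [ha, hb']
    norm_num
  · have : 0 < a ^ 2 + b ^ 2 := lt_of_le_of_ne (by positivity) (Ne.symm hb)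
    positivity

theorem N2_nonneg (a b : ℝ) : 0 ≤ N2 a b := by unfold N2; positivity

theorem sqrtM_pos {h : ℝ} (hh : 0 < h) (a b : ℝ) : 0 < √(M2 h a b) :=
  Real.sqrt_pos.mpr (M2_pos hh a b)

theorem R_pos {h k : ℝ} (hh : 0 < h) (hk : 0 < k) (a b : ℝ) : 0 < √(M2 h a b) + k * N2 a b := by
  have := sqrtM_pos hh a b
  have := N2_nonneg a b
  positivity

/-- first derivatives -/
def Mx (h a b : ℝ) : ℝ := 4 * a * (a ^ 2 - b ^ 2 - 1) + 8 * a * b ^ 2 + 4 * h * a * (a ^ 2 + b ^ 2)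
def My (h a b : ℝ) : ℝ := -4 * b * (a ^ 2 - b ^ 2 - 1) + 8 * a ^ 2 * b + 4 * h * b * (a ^ 2 + b ^ 2)
def Mxx (h a b : ℝ) : ℝ := 4 * (a ^ 2 - b ^ 2 - 1) + 8 * a ^ 2 + 8 * b ^ 2 +
  4 * h * (a ^ 2 + b ^ 2) + 8 * h * a ^ 2
def Myy (h a b : ℝ) : ℝ := -4 * (a ^ 2 - b ^ 2 - 1) + 8 * b ^ 2 + 8 * a ^ 2 +
  4 * h * (a ^ 2 + b ^ 2) + 8 * h * b ^ 2

theorem dM_x (h a b : ℝ) : HasDerivAt (fun s => M2 h s b) (Mx h a b) a := by
  unfold M2 Mx
  have h2 : HasDerivAt (fun s : ℝ => s ^ 2) (2 * a) a := by simpa using hasDerivAt_pow 2 a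
  have h3 : HasDerivAt (fun s : ℝ => s ^ 2 - b ^ 2 - 1) (2 * a) a := (h2.sub_const _).sub_const _
  have h4 : HasDerivAt (fun s : ℝ => s ^ 2 + b ^ 2) (2 * a) a := h2.add_const _
  have h5 := (((h3.pow 2).add ((h2.const_mul 4).mul_const (b ^ 2))).add ((h4.pow 2).const_mul h))
  convert! h5 using 1
  simp
  ring

theorem dM_y (h a b : ℝ) : HasDerivAt (fun s => M2 h a s) (My h a b) b := by
  unfold M2 My
  have h2 : HasDerivAt (fun s : ℝ => s ^ 2) (2 * b) b := by simpa using hasDerivAt_pow 2 b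
  have h3 : HasDerivAt (fun s : ℝ => a ^ 2 - s ^ 2 - 1) (-(2 * b)) b :=
    (h2.const_sub _).sub_const _
  have h4 : HasDerivAt (fun s : ℝ => a ^ 2 + s ^ 2) (2 * b) b := h2.const_add _
  have h5 := (((h3.pow 2).add (h2.const_mul (4 * a ^ 2))).add ((h4.pow 2).const_mul h))
  convert! h5 using 1
  simp
  ring

theorem dN_x (a b : ℝ) : HasDerivAt (fun s => N2 s b) (2 * a) a := by
  unfold N2
  have h2 : HasDerivAt (fun s : ℝ => s ^ 2) (2 * a) a := by simpa using hasDerivAt_pow 2 a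
  exact h2.add_const _

theorem dN_y (a b : ℝ) : HasDerivAt (fun s => N2 a s) (2 * b) b := by
  unfold N2
  have h2 : HasDerivAt (fun s : ℝ => s ^ 2) (2 * b) b := by simpa using hasDerivAt_pow 2 b
  exact h2.const_add _

theorem dM_xx (h a b : ℝ) : HasDerivAt (fun s => Mx h s b) (Mxx h a b) a := by
  unfold Mx Mxx
  have h1 := hasDerivAt_id a
  have h2 : HasDerivAt (fun s : ℝ => s ^ 2) (2 * a) a := by simpa using hasDerivAt_pow 2 a
  have h3 : HasDerivAt (fun s : ℝ => s ^ 2 - b ^ 2 - 1) (2 * a) a := (h2.sub_const _).sub_const _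
  have h4 : HasDerivAt (fun s : ℝ => s ^ 2 + b ^ 2) (2 * a) a := h2.add_const _
  have h5 := ((((h1.const_mul 4).mul h3).add ((h1.const_mul 8).mul_const (b ^ 2))).add
    ((h1.const_mul (4 * h)).mul h4))
  convert! h5 using 1
  simp
  ring

theorem dM_yy (h a b : ℝ) : HasDerivAt (fun s => My h a s) (Myy h a b) b := by
  unfold My Myy
  have h1 := hasDerivAt_id b
  have h2 : HasDerivAt (fun s : ℝ => s ^ 2) (2 * b) b := by simpa using hasDerivAt_pow 2 b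
  have h3 : HasDerivAt (fun s : ℝ => a ^ 2 - s ^ 2 - 1) (-(2 * b)) b :=
    (h2.const_sub _).sub_const _
  have h4 : HasDerivAt (fun s : ℝ => a ^ 2 + s ^ 2) (2 * b) b := h2.const_add _
  have h5 := ((((h1.const_mul (-4)).mul h3).add (h1.const_mul (8 * a ^ 2))).add
    ((h1.const_mul (4 * h)).mul h4))
  convert! h5 using 1
  simp
  ring

theorem id_lapM (h a b : ℝ) : Mxx h a b + Myy h a b = 16 * (1 + h) * N2 a b := by
  unfold Mxx Myy N2; ring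

theorem id_gradM (h a b : ℝ) :
    (Mx h a b) ^ 2 + (My h a b) ^ 2 = 16 * N2 a b * ((1 + h) * M2 h a b - h) := by
  unfold Mx My N2 M2; ring

theorem id_gradMN (h a b : ℝ) :
    Mx h a b * (2 * a) + My h a b * (2 * b) = 4 * (M2 h a b + (1 + h) * (N2 a b) ^ 2 - 1) := by
  unfold Mx My N2 M2; ring

theorem id_gradN (a b : ℝ) : (2 * a) ^ 2 + (2 * b) ^ 2 = 4 * N2 a b := by unfold N2; ring

/-- the conformal factor -/
noncomputable def U (e : ℝ) (x : Plane) : ℝ := U2 (Real.log (2 * e)) (e ^ 2) (e ^ 8) (x 0) (x 1)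

theorem U_contDiff {e : ℝ} (he : 0 < e) {n : WithTop ℕ∞} : ContDiff ℝ n (U e) := by
  have h0 : ContDiff ℝ n (fun x : Plane => x 0) := contDiff_euclidean.mp contDiff_id 0
  have h1 : ContDiff ℝ n (fun x : Plane => x 1) := contDiff_euclidean.mp contDiff_id 1
  have hM : ContDiff ℝ n (fun x : Plane => M2 (e ^ 8) (x 0) (x 1)) := by
    unfold M2; fun_prop
  have hN : ContDiff ℝ n (fun x : Plane => N2 (x 0) (x 1)) := by
    unfold N2; fun_prop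
  have hMp : ∀ x : Plane, M2 (e ^ 8) (x 0) (x 1) ≠ 0 := fun x => (M2_pos (by positivity) _ _).ne'
  have hq : ContDiff ℝ n (fun x : Plane => √(M2 (e ^ 8) (x 0) (x 1))) := hM.sqrt hMp
  have hR : ContDiff ℝ n (fun x : Plane => √(M2 (e ^ 8) (x 0) (x 1)) + e ^ 2 * N2 (x 0) (x 1)) :=
    hq.add (contDiff_const.mul hN)
  unfold U U2
  exact (contDiff_const.sub (contDiff_const.mul (hM.log hMp))).sub
    (hR.log fun x => (R_pos (by positivity) (by positivity) _ _).ne')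

/-- the algebraic identity -/
theorem alg_identity {h k q N g1 g2 g3 l : ℝ} (hq : 0 < q) (hR : 0 < q + k * N)
    (hl : l = 16 * (1 + h) * N) (h1 : g1 = 16 * N * ((1 + h) * q ^ 2 - h))
    (h2 : g2 = 4 * (q ^ 2 + (1 + h) * N ^ 2 - 1)) (h3 : g3 = 4 * N) :
    -(1 / 4) * (l / q ^ 2 - g1 / (q ^ 2) ^ 2)
      - ((l / (2 * q) - g1 / (4 * q ^ 3) + k * 4) * (q + k * N)
          - (g1 / (4 * q ^ 2) + k * g2 / q + k ^ 2 * g3)) / (q + k * N) ^ 2
    = -(4 * h * N / q ^ 4) - (8 * h * N / q ^ 2 + 4 * k * h * N ^ 2 / q ^ 3) / (q + k * N) ^ 2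
      - 4 * k / (q * (q + k * N) ^ 2) := by
  subst hl h1 h2 h3
  have := hR.ne'
  field_simp
  ring

theorem U_laplacian {e : ℝ} (he : 0 < e) (x : Plane) :
    (Laplacian.laplacian (U e)) x =
      -(4 * e ^ 8 * N2 (x 0) (x 1) / √(M2 (e ^ 8) (x 0) (x 1)) ^ 4)
      - (8 * e ^ 8 * N2 (x 0) (x 1) / √(M2 (e ^ 8) (x 0) (x 1)) ^ 2
        + 4 * e ^ 2 * e ^ 8 * N2 (x 0) (x 1) ^ 2 / √(M2 (e ^ 8) (x 0) (x 1)) ^ 3)
        / (√(M2 (e ^ 8) (x 0) (x 1)) + e ^ 2 * N2 (x 0) (x 1)) ^ 2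
      - 4 * e ^ 2 / (√(M2 (e ^ 8) (x 0) (x 1)) *
        (√(M2 (e ^ 8) (x 0) (x 1)) + e ^ 2 * N2 (x 0) (x 1)) ^ 2) := by
  have hh : 0 < e ^ 8 := by positivity
  have hk : 0 < e ^ 2 := by positivity
  have hd2 : ∀ a : ℝ, HasDerivAt (fun s : ℝ => 2 * s) 2 a := by
    intro a
    simpa using (hasDerivAt_id a).const_mul 2
  have key := laplacian_coord (f := U e) (U_contDiff he)
    (F := fun a b => U2 (Real.log (2 * e)) (e ^ 2) (e ^ 8) a b)
    (F1 := fun a b => -(Mx (e ^ 8) a b) / (4 * M2 (e ^ 8) a b) -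
      (Mx (e ^ 8) a b / (2 * √(M2 (e ^ 8) a b)) + e ^ 2 * (2 * a)) /
        (√(M2 (e ^ 8) a b) + e ^ 2 * N2 a b))
    (F2 := fun a b => -(My (e ^ 8) a b) / (4 * M2 (e ^ 8) a b) -
      (My (e ^ 8) a b / (2 * √(M2 (e ^ 8) a b)) + e ^ 2 * (2 * b)) /
        (√(M2 (e ^ 8) a b) + e ^ 2 * N2 a b))
    (fun _ => rfl)
    (fun a b => line_deriv1 (m := fun s => M2 (e ^ 8) s b) (n := fun s => N2 s b)
      (m1 := fun s => Mx (e ^ 8) s b) (n1 := fun s => 2 * s)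
      (fun s => M2_pos hh s b) (fun s => R_pos hh hk s b)
      (fun s => dM_x (e ^ 8) s b) (fun s => dN_x s b) a)
    (fun a b => line_deriv1 (m := fun s => M2 (e ^ 8) a s) (n := fun s => N2 a s)
      (m1 := fun s => My (e ^ 8) a s) (n1 := fun s => 2 * s)
      (fun s => M2_pos hh a s) (fun s => R_pos hh hk a s)
      (fun s => dM_y (e ^ 8) a s) (fun s => dN_y a s) b)
    (x := x)
    (line_deriv2 (m := fun s => M2 (e ^ 8) s (x 1)) (n := fun s => N2 s (x 1))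
      (m1 := fun s => Mx (e ^ 8) s (x 1)) (n1 := fun s => 2 * s) (a := x 0)
      (fun s => M2_pos hh s (x 1)) (fun s => R_pos hh hk s (x 1))
      (fun s => dM_x (e ^ 8) s (x 1)) (fun s => dN_x s (x 1)) (dM_xx (e ^ 8) (x 0) (x 1))
      (hd2 (x 0)))
    (line_deriv2 (m := fun s => M2 (e ^ 8) (x 0) s) (n := fun s => N2 (x 0) s)
      (m1 := fun s => My (e ^ 8) (x 0) s) (n1 := fun s => 2 * s) (a := x 1)
      (fun s => M2_pos hh (x 0) s) (fun s => R_pos hh hk (x 0) s)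
      (fun s => dM_y (e ^ 8) (x 0) s) (fun s => dN_y (x 0) s) (dM_yy (e ^ 8) (x 0) (x 1))
      (hd2 (x 1)))
  rw [key]
  have hqq : √(M2 (e ^ 8) (x 0) (x 1)) ^ 2 = M2 (e ^ 8) (x 0) (x 1) :=
    Real.sq_sqrt (M2_pos hh _ _).le
  have hq := sqrtM_pos hh (x 0) (x 1)
  have hR := R_pos hh hk (x 0) (x 1)
  have e1 := id_lapM (e ^ 8) (x 0) (x 1)
  have e2 := id_gradM (e ^ 8) (x 0) (x 1)
  have e3 := id_gradMN (e ^ 8) (x 0) (x 1)
  have e4 := id_gradN (x 0) (x 1)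
  rw [← hqq] at e2 e3
  have e5 := alg_identity (h := e ^ 8) (k := e ^ 2) hq hR e1 e2 e3 e4
  rw [← e5, ← hqq]
  simp only [Real.sqrt_sq hq.le]
  ring

theorem log_aux {a q R : ℝ} (ha : 0 < a) (hq : 0 < q) (hR : 0 < R) :
    2 * (Real.log a - (1 / 2) * Real.log q - Real.log R) = Real.log (a ^ 2 / (q * R ^ 2)) := by
  rw [Real.log_div (by positivity) (by positivity), Real.log_mul (by positivity) (by positivity),
      Real.log_pow, Real.log_pow]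
  push_cast
  ring

theorem exp_two_U {e : ℝ} (he : 0 < e) (x : Plane) :
    Real.exp (2 * U e x) = 4 * e ^ 2 / (√(M2 (e ^ 8) (x 0) (x 1)) *
        (√(M2 (e ^ 8) (x 0) (x 1)) + e ^ 2 * N2 (x 0) (x 1)) ^ 2) := by
  have hh : 0 < e ^ 8 := by positivity
  have hk : 0 < e ^ 2 := by positivity
  have hM := M2_pos hh (x 0) (x 1)
  have hq := sqrtM_pos hh (x 0) (x 1)
  have hR := R_pos hh hk (x 0) (x 1)
  unfold U U2
  have h1 : (1 / 4) * Real.log (M2 (e ^ 8) (x 0) (x 1)) =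
      (1 / 2) * Real.log (√(M2 (e ^ 8) (x 0) (x 1))) := by
    rw [Real.log_sqrt hM.le]; ring
  rw [h1]
  have h2 : 2 * (Real.log (2 * e) - (1 / 2) * Real.log (√(M2 (e ^ 8) (x 0) (x 1))) -
      Real.log (√(M2 (e ^ 8) (x 0) (x 1)) + e ^ 2 * N2 (x 0) (x 1))) =
      Real.log ((2 * e) ^ 2 / (√(M2 (e ^ 8) (x 0) (x 1)) *
        (√(M2 (e ^ 8) (x 0) (x 1)) + e ^ 2 * N2 (x 0) (x 1)) ^ 2)) := by
    exact log_aux (by positivity) hq hR
  rw [h2, Real.exp_log (by positivity)]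
  ring

theorem exp_U {e : ℝ} (he : 0 < e) (x : Plane) :
    Real.exp (U e x) = 2 * e / (√(√(M2 (e ^ 8) (x 0) (x 1))) *
        (√(M2 (e ^ 8) (x 0) (x 1)) + e ^ 2 * N2 (x 0) (x 1))) := by
  have hh : 0 < e ^ 8 := by positivity
  have hk : 0 < e ^ 2 := by positivity
  have hM := M2_pos hh (x 0) (x 1)
  have hq := sqrtM_pos hh (x 0) (x 1)
  have hR := R_pos hh hk (x 0) (x 1)
  have h1 : Real.exp (U e x) ^ 2 = (2 * e / (√(√(M2 (e ^ 8) (x 0) (x 1))) *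
        (√(M2 (e ^ 8) (x 0) (x 1)) + e ^ 2 * N2 (x 0) (x 1)))) ^ 2 := by
    rw [← Real.exp_nat_mul]
    push_cast
    rw [exp_two_U he, div_pow, mul_pow (√(√(M2 (e ^ 8) (x 0) (x 1)))), Real.sq_sqrt hq.le]
    ring
  have h2 : 0 ≤ 2 * e / (√(√(M2 (e ^ 8) (x 0) (x 1))) *
        (√(M2 (e ^ 8) (x 0) (x 1)) + e ^ 2 * N2 (x 0) (x 1))) := by positivity
  exact (pow_left_inj₀ (Real.exp_pos _).le h2 (by norm_num)).mp h1

/-- supersolution -/
theorem U_super {e : ℝ} (he : 0 < e) (x : Plane) :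
    (Laplacian.laplacian (U e)) x + Real.exp (2 * U e x) ≤ 0 := by
  have hh : 0 < e ^ 8 := by positivity
  have hk : 0 < e ^ 2 := by positivity
  have hM := M2_pos hh (x 0) (x 1)
  have hq := sqrtM_pos hh (x 0) (x 1)
  have hN := N2_nonneg (x 0) (x 1)
  rw [U_laplacian he, exp_two_U he]
  have h1 : 0 ≤ 4 * e ^ 8 * N2 (x 0) (x 1) / √(M2 (e ^ 8) (x 0) (x 1)) ^ 4 := by positivity
  have h2 : 0 ≤ (8 * e ^ 8 * N2 (x 0) (x 1) / √(M2 (e ^ 8) (x 0) (x 1)) ^ 2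
        + 4 * e ^ 2 * e ^ 8 * N2 (x 0) (x 1) ^ 2 / √(M2 (e ^ 8) (x 0) (x 1)) ^ 3)
        / (√(M2 (e ^ 8) (x 0) (x 1)) + e ^ 2 * N2 (x 0) (x 1)) ^ 2 := by positivity
  linarith

end Pool.Agent.Lib.MP_0fb7ac_an
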