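import Pool.Agent.Lib.MP_0fb7ac_an.Length

/-!
The lower bound for the distance of `(1,0)` and `(-1,0)`.
-/

namespace Pool.Agent.Lib.MP_0fb7ac_an

open MeasureTheory Set InnerProductSpace
open scoped Laplacian

/-- `ψ = 2 arctan (e √(N/√M))` -/
noncomputable def psi (e : ℝ) (x : Plane) : ℝ :=
  2 * Real.arctan (e * √(N2 (x 0) (x 1) / √(M2 (e ^ 8) (x 0) (x 1))))

theorem psi_continuous {e : ℝ} (he : 0 < e) : Continuous (psi e) := by
  have h0 : Continuous (fun x : Plane => x 0) := by fun_prop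
  have h1 : Continuous (fun x : Plane => x 1) := by fun_prop
  have hM : Continuous (fun x : Plane => M2 (e ^ 8) (x 0) (x 1)) := by
    unfold M2; fun_prop
  have hN : Continuous (fun x : Plane => N2 (x 0) (x 1)) := by
    unfold N2; fun_prop
  unfold psi
  refine continuous_const.mul (Real.continuous_arctan.comp (continuous_const.mul
    (Real.continuous_sqrt.comp (hN.div (Real.continuous_sqrt.comp hM) fun x => ?_))))
  exact (sqrtM_pos (by positivity) _ _).ne'

/-- derivative of a coordinate -/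
theorem coord_deriv {γ : ℝ → Plane} {t : ℝ} (h : DifferentiableAt ℝ γ t) (i : Fin 2) :
    HasDerivAt (fun s => γ s i) (deriv γ t i) t := by
  have h1 := h.hasDerivAt
  have h2 := (EuclideanSpace.proj (𝕜 := ℝ) i : Plane →L[ℝ] ℝ).hasFDerivAt.comp_hasDerivAt t h1
  exact h2

/-- `ψ` is Lipschitz for the metric along curves that avoid the origin -/
theorem psi_along {e : ℝ} (he : 0 < e) {γ : ℝ → Plane} {t : ℝ} (h : DifferentiableAt ℝ γ t)
    (hN : 0 < N2 (γ t 0) (γ t 1)) :
    ∃ f', HasDerivAt (fun s => psi e (γ s)) f' t ∧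
      |f'| ≤ Real.exp (U e (γ t)) * ‖deriv γ t‖ := by
  have hh : 0 < e ^ 8 := by positivity
  have hk : 0 < e ^ 2 := by positivity
  have hM := M2_pos hh (γ t 0) (γ t 1)
  have d0 := coord_deriv h 0
  have d1 := coord_deriv h 1
  set x' := deriv γ t 0 with hx'
  set y' := deriv γ t 1 with hy'
  have dN : HasDerivAt (fun s => N2 (γ s 0) (γ s 1))
      (2 * γ t 0 * x' + 2 * γ t 1 * y') t := by
    unfold N2
    have := (d0.pow 2).add (d1.pow 2)
    convert! this using 1
    simp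
  have dM : HasDerivAt (fun s => M2 (e ^ 8) (γ s 0) (γ s 1))
      (Mx (e ^ 8) (γ t 0) (γ t 1) * x' + My (e ^ 8) (γ t 0) (γ t 1) * y') t := by
    unfold M2 Mx My
    have h2 := d0.pow 2
    have h3 := d1.pow 2
    have h4 := (h2.sub h3).sub_const 1
    have h5 := (((h4.pow 2).add ((h2.const_mul 4).mul h3))).add
      (((h2.add h3).pow 2).const_mul (e ^ 8))
    convert! h5 using 1
    simp
    ring
  have hv2 : ‖deriv γ t‖ ^ 2 = x' ^ 2 + y' ^ 2 := by
    rw [EuclideanSpace.norm_sq_eq]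
    simp [Fin.sum_univ_two, hx', hy']
  obtain ⟨f', hf', hb⟩ := psi_deriv (mf := fun s => M2 (e ^ 8) (γ s 0) (γ s 1))
    (nf := fun s => N2 (γ s 0) (γ s 1)) (v := ‖deriv γ t‖) he hM hN rfl rfl dM dN (norm_nonneg _)
    (by
      rw [hv2]
      have hq := sqrtM_pos hh (γ t 0) (γ t 1)
      have hqq : √(M2 (e ^ 8) (γ t 0) (γ t 1)) ^ 2 = M2 (e ^ 8) (γ t 0) (γ t 1) :=
        Real.sq_sqrt hM.le
      set q := √(M2 (e ^ 8) (γ t 0) (γ t 1))
      set a := γ t 0
      set b := γ t 1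
      have hN0 := N2_nonneg a b
      -- the vector `V = q ∇N - N ∇q`
      have e0 : (2 * a * x' + 2 * b * y') * q -
          N2 a b * (Mx (e ^ 8) a b * x' + My (e ^ 8) a b * y') / (2 * q) =
          ((4 * a * q ^ 2 - N2 a b * Mx (e ^ 8) a b) * x' +
            (4 * b * q ^ 2 - N2 a b * My (e ^ 8) a b) * y') / (2 * q) := by
        field_simp
        ring
      rw [e0, hqq, div_pow, div_le_iff₀ (by positivity), mul_pow, hqq]
      have e1 : (4 * a * M2 (e ^ 8) a b - N2 a b * Mx (e ^ 8) a b) ^ 2 +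
          (4 * b * M2 (e ^ 8) a b - N2 a b * My (e ^ 8) a b) ^ 2 =
          16 * N2 a b * M2 (e ^ 8) a b - 16 * N2 a b * (e ^ 8 * N2 a b ^ 2) := by
        unfold M2 Mx My N2; ring
      have e2 : (4 * a * M2 (e ^ 8) a b - N2 a b * Mx (e ^ 8) a b) ^ 2 +
          (4 * b * M2 (e ^ 8) a b - N2 a b * My (e ^ 8) a b) ^ 2 ≤
          16 * N2 a b * M2 (e ^ 8) a b := by
        rw [e1]
        have : 0 ≤ 16 * N2 a b * (e ^ 8 * N2 a b ^ 2) := by positivity
        linarith
      set V0 := 4 * a * M2 (e ^ 8) a b - N2 a b * Mx (e ^ 8) a b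
      set V1 := 4 * b * M2 (e ^ 8) a b - N2 a b * My (e ^ 8) a b
      calc (V0 * x' + V1 * y') ^ 2 ≤ (V0 ^ 2 + V1 ^ 2) * (x' ^ 2 + y' ^ 2) := by
            nlinarith [sq_nonneg (V0 * y' - V1 * x')]
        _ ≤ 16 * N2 a b * M2 (e ^ 8) a b * (x' ^ 2 + y' ^ 2) := by gcongr
        _ = _ := by ring)
  refine ⟨f', hf', ?_⟩
  rw [exp_U he]
  exact hb

/-- measurability of a piecewise C^1 curve's speed is automatic; lower bound on a subinterval -/
theorem length_lower {e : ℝ} (he : 0 < e) {γ : ℝ → Plane} {a b : ℝ} (hab : a ≤ b)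
    (hc : ContinuousOn γ (Icc a b)) {s : Set ℝ} (hs : s.Countable)
    (hd : ∀ t ∈ Ioo a b \ s, DifferentiableAt ℝ γ t)
    (hN : ∀ t ∈ Ioo a b, 0 < N2 (γ t 0) (γ t 1)) :
    ENNReal.ofReal |psi e (γ b) - psi e (γ a)| ≤
      ∫⁻ t in Icc a b, ENNReal.ofReal (Real.exp (U e (γ t)) * ‖deriv γ t‖) := by
  by_cases htop : ∫⁻ t in Icc a b, ENNReal.ofReal (Real.exp (U e (γ t)) * ‖deriv γ t‖) = ⊤
  · rw [htop]; exact le_top
  have hUc : Continuous (U e) := (U_contDiff he (n := 0)).continuous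
  have hg : AEStronglyMeasurable (fun t => Real.exp (U e (γ t)) * ‖deriv γ t‖)
      (volume.restrict (Icc a b)) := by
    have h1 : ContinuousOn (fun t => Real.exp (U e (γ t))) (Icc a b) := by fun_prop
    have h2 := h1.aestronglyMeasurable (μ := volume) measurableSet_Icc
    exact h2.mul (measurable_deriv γ).norm.aestronglyMeasurable
  have hgi : IntegrableOn (fun t => Real.exp (U e (γ t)) * ‖deriv γ t‖) (Icc a b) := by
    refine ⟨hg, ?_⟩
    rw [hasFiniteIntegral_iff_ofReal (Filter.Eventually.of_forall fun t => by positivity)]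
    exact lt_top_iff_ne_top.mpr htop
  have hf : ∀ t ∈ Ioo a b \ s, HasDerivAt (fun s => psi e (γ s)) (deriv (fun s => psi e (γ s)) t) t
      ∧ |deriv (fun s => psi e (γ s)) t| ≤ Real.exp (U e (γ t)) * ‖deriv γ t‖ := by
    intro t ht
    obtain ⟨f', h1, h2⟩ := psi_along he (hd t ht) (hN t ht.1)
    rw [h1.deriv]
    exact ⟨h1, h2⟩
  have hae : ∀ᵐ t ∂(volume.restrict (Icc a b)),
      ‖deriv (fun s => psi e (γ s)) t‖ ≤ Real.exp (U e (γ t)) * ‖deriv γ t‖ := by
    rw [← restrict_Ioo_eq_restrict_Icc]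
    have h1 : ∀ᵐ t ∂(volume.restrict (Ioo a b)), t ∉ s :=
      ae_restrict_of_ae (hs.ae_notMem volume)
    filter_upwards [h1, ae_restrict_mem measurableSet_Ioo] with t h2 h3
    rw [Real.norm_eq_abs]
    exact (hf t ⟨h3, h2⟩).2
  have hfi : IntegrableOn (deriv (fun s => psi e (γ s))) (Icc a b) :=
    Integrable.mono' hgi (measurable_deriv _).aestronglyMeasurable hae
  have hfi' : IntervalIntegrable (deriv (fun s => psi e (γ s))) volume a b := by
    rw [intervalIntegrable_iff_integrableOn_Icc_of_le hab]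
    exact hfi
  have hcont : ContinuousOn (fun s => psi e (γ s)) (Icc a b) :=
    (psi_continuous he).comp_continuousOn hc
  have key := integral_eq_of_hasDerivAt_off_countable_of_le (fun s => psi e (γ s))
    (deriv (fun s => psi e (γ s))) hab hs hcont (fun t ht => (hf t ht).1) hfi'
  have h1 : |psi e (γ b) - psi e (γ a)| ≤
      ∫ t in Icc a b, Real.exp (U e (γ t)) * ‖deriv γ t‖ := by
    rw [← key, intervalIntegral.integral_of_le hab, ← integral_Icc_eq_integral_Ioc,
      ← Real.norm_eq_abs]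
    exact norm_integral_le_of_norm_le hgi hae
  calc ENNReal.ofReal |psi e (γ b) - psi e (γ a)|
      ≤ ENNReal.ofReal (∫ t in Icc a b, Real.exp (U e (γ t)) * ‖deriv γ t‖) :=
        ENNReal.ofReal_le_ofReal h1
    _ = _ := ofReal_integral_eq_lintegral_ofReal hgi
        (Filter.Eventually.of_forall fun t => by positivity)

theorem psi_end {e : ℝ} (he : 0 < e) (x : Plane) (h0 : (x 0) ^ 2 = 1) (h1 : x 1 = 0) :
    psi e x = Real.pi - 2 * Real.arctan e := by
  have hN : N2 (x 0) (x 1) = 1 := by unfold N2; rw [h1, h0]; norm_num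
  have hM : M2 (e ^ 8) (x 0) (x 1) = (e ^ 4) ^ 2 := by unfold M2; rw [h1, h0]; ring
  unfold psi
  rw [hN, hM, Real.sqrt_sq (by positivity)]
  have h2 : √(1 / e ^ 4) = 1 / e ^ 2 := by
    rw [show (1 : ℝ) / e ^ 4 = (1 / e ^ 2) ^ 2 by field_simp]
    exact Real.sqrt_sq (by positivity)
  rw [h2, show e * (1 / e ^ 2) = e⁻¹ by field_simp, Real.arctan_inv_of_pos he]
  ring

theorem psi_axis {e : ℝ} (he : 0 < e) (x : Plane) (h0 : x 0 = 0) :
    psi e x ≤ 2 * Real.arctan e := by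
  unfold psi
  have hM : N2 (x 0) (x 1) ≤ √(M2 (e ^ 8) (x 0) (x 1)) := by
    apply Real.le_sqrt_of_sq_le
    unfold N2 M2
    rw [h0]
    have : 0 ≤ e ^ 8 * (0 ^ 2 + x 1 ^ 2) ^ 2 := by positivity
    nlinarith [sq_nonneg (x 1)]
  have hq := sqrtM_pos (h := e ^ 8) (by positivity) (x 0) (x 1)
  have h1 : √(N2 (x 0) (x 1) / √(M2 (e ^ 8) (x 0) (x 1))) ≤ 1 := by
    rw [Real.sqrt_le_one]
    rw [div_le_one hq]
    exact hM
  have h2 : e * √(N2 (x 0) (x 1) / √(M2 (e ^ 8) (x 0) (x 1))) ≤ e := by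
    calc _ ≤ e * 1 := by gcongr
      _ = e := mul_one e
  have h3 := Real.arctan_strictMono.monotone h2
  linarith

/-- lower bound for the length of a curve from `(1,0)` to `(-1,0)` -/
theorem gLength_lower {e : ℝ} (he : 0 < e) {γ : ℝ → Plane} (hγ : IsPiecewiseC1 γ)
    (h0 : γ 0 0 = 1) (h0' : γ 0 1 = 0) (h1 : γ 1 0 = -1) (h1' : γ 1 1 = 0) :
    ENNReal.ofReal (2 * Real.pi - 8 * Real.arctan e) ≤ gLength (U e) γ := by
  obtain ⟨hc, s, hs⟩ := hγ
  have hcx : ContinuousOn (fun t => γ t 0) (Icc 0 1) := by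
    have h0 : Continuous (fun x : Plane => x 0) := by fun_prop
    exact h0.comp_continuousOn hc
  -- differentiability
  have hd : ∀ t ∈ Ioo (0 : ℝ) 1 \ (s : Set ℝ), DifferentiableAt ℝ γ t := by
    intro t ht
    -- a small interval around `t` free of break points
    have hopen : IsOpen (((s : Set ℝ))ᶜ ∩ Ioo 0 1) := (s.finite_toSet.isClosed.isOpen_compl).inter isOpen_Ioo
    obtain ⟨r, hr, hball⟩ := Metric.isOpen_iff.mp hopen t ⟨ht.2, ht.1⟩
    have hsub : Icc (t - r / 2) (t + r / 2) ⊆ ((s : Set ℝ))ᶜ ∩ Ioo 0 1 := by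
      intro y hy
      apply hball
      rw [Metric.mem_ball, Real.dist_eq, abs_lt]
      constructor <;> linarith [hy.1, hy.2]
    have ha := hsub (left_mem_Icc.mpr (by linarith : t - r / 2 ≤ t + r / 2))
    have hb := hsub (right_mem_Icc.mpr (by linarith : t - r / 2 ≤ t + r / 2))
    have hcd := hs (t - r / 2) (t + r / 2) ha.2.1.le (by linarith) hb.2.2.le (by
      intro y hy hy'
      exact (hsub (Ioo_subset_Icc_self hy')).1 hy)
    exact (hcd.contDiffAt (Icc_mem_nhds (by linarith) (by linarith))).differentiableAt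
      (by norm_num)
  -- first and last time on the axis
  set A : Set ℝ := {t ∈ Icc (0 : ℝ) 1 | γ t 0 ≤ 0} with hA
  set B : Set ℝ := {t ∈ Icc (0 : ℝ) 1 | 0 ≤ γ t 0} with hB
  have hAc : IsClosed A := by
    have := hcx.preimage_isClosed_of_isClosed isClosed_Icc (isClosed_Iic (a := (0 : ℝ)))
    exact this
  have hBc : IsClosed B := by
    have := hcx.preimage_isClosed_of_isClosed isClosed_Icc (isClosed_Ici (a := (0 : ℝ)))
    exact this
  have h1A : (1 : ℝ) ∈ A := ⟨by norm_num, by rw [h1]; norm_num⟩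
  have h0B : (0 : ℝ) ∈ B := ⟨by norm_num, by rw [h0]; norm_num⟩
  have hAbd : BddBelow A := ⟨0, fun t ht => ht.1.1⟩
  have hBbd : BddAbove B := ⟨1, fun t ht => ht.1.2⟩
  set τ := sInf A with hτ
  set σ := sSup B with hσ
  have hτA : τ ∈ A := hAc.csInf_mem ⟨1, h1A⟩ hAbd
  have hσB : σ ∈ B := hBc.csSup_mem ⟨0, h0B⟩ hBbd
  have hτlt : ∀ t ∈ Icc (0 : ℝ) 1, t < τ → 0 < γ t 0 := by
    intro t ht hlt
    by_contra hcon
    exact absurd (csInf_le hAbd (⟨ht, not_lt.mp hcon⟩ : t ∈ A)) (not_le.mpr hlt)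
  have hσlt : ∀ t ∈ Icc (0 : ℝ) 1, σ < t → γ t 0 < 0 := by
    intro t ht hlt
    by_contra hcon
    exact absurd (le_csSup hBbd (⟨ht, not_lt.mp hcon⟩ : t ∈ B)) (not_le.mpr hlt)
  have hτ0 : 0 < τ := by
    rcases hτA.1.1.eq_or_lt with h | h
    · exfalso
      have := hτA.2
      rw [← h, h0] at this
      linarith
    · exact h
  have hσ1 : σ < 1 := by
    rcases hσB.1.2.eq_or_lt with h | h
    · exfalso
      have := hσB.2
      rw [h, h1] at this
      linarith
    · exact h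
  -- value at `τ`
  have hτz : γ τ 0 = 0 := by
    refine le_antisymm hτA.2 ?_
    have hcw : ContinuousWithinAt (fun t => γ t 0) (Ioo 0 τ) τ :=
      (hcx τ hτA.1).mono (fun t ht => ⟨ht.1.le, ht.2.le.trans hτA.1.2⟩)
    have hne : (nhdsWithin τ (Ioo 0 τ)).NeBot := by
      rw [nhdsWithin_Ioo_eq_nhdsLT hτ0]; infer_instance
    refine ge_of_tendsto hcw ?_
    filter_upwards [self_mem_nhdsWithin] with t ht
    exact (hτlt t ⟨ht.1.le, ht.2.le.trans hτA.1.2⟩ ht.2).le
  have hσz : γ σ 0 = 0 := by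
    refine le_antisymm ?_ hσB.2
    have hcw : ContinuousWithinAt (fun t => γ t 0) (Ioo σ 1) σ :=
      (hcx σ hσB.1).mono (fun t ht => ⟨hσB.1.1.trans ht.1.le, ht.2.le⟩)
    have hne : (nhdsWithin σ (Ioo σ 1)).NeBot := by
      rw [nhdsWithin_Ioo_eq_nhdsGT hσ1]; infer_instance
    refine le_of_tendsto hcw ?_
    filter_upwards [self_mem_nhdsWithin] with t ht
    exact (hσlt t ⟨hσB.1.1.trans ht.1.le, ht.2.le⟩ ht.1).le
  have hτσ : τ ≤ σ := le_csSup hBbd (⟨hτA.1, hτz.ge⟩ : τ ∈ B)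
  -- the two lower bounds
  have b1 := length_lower he hτ0.le (γ := γ) (hc.mono (Icc_subset_Icc_right hτA.1.2))
    (s := (s : Set ℝ)) s.finite_toSet.countable
    (fun t ht => hd t ⟨⟨ht.1.1, ht.1.2.trans_le hτA.1.2⟩, ht.2⟩)
    (fun t ht => by
      have := hτlt t ⟨ht.1.le, ht.2.le.trans hτA.1.2⟩ ht.2
      unfold N2; positivity)
  have b2 := length_lower he hσ1.le (γ := γ) (hc.mono (Icc_subset_Icc_left hσB.1.1))
    (s := (s : Set ℝ)) s.finite_toSet.countable
    (fun t ht => hd t ⟨⟨hσB.1.1.trans_lt ht.1.1, ht.1.2⟩, ht.2⟩)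
    (fun t ht => by
      have := hσlt t ⟨hσB.1.1.trans ht.1.le, ht.2.le⟩ ht.1
      have h3 : 0 < (γ t 0) ^ 2 := by nlinarith
      unfold N2; positivity)
  have e0 : psi e (γ 0) = Real.pi - 2 * Real.arctan e := psi_end he _ (by rw [h0]; norm_num) h0'
  have e1 : psi e (γ 1) = Real.pi - 2 * Real.arctan e := psi_end he _ (by rw [h1]; norm_num) h1'
  have e2 := psi_axis he (γ τ) hτz
  have e3 := psi_axis he (γ σ) hσz
  have c1 : ENNReal.ofReal (Real.pi - 4 * Real.arctan e) ≤ ENNReal.ofReal |psi e (γ τ) - psi e (γ 0)| := by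
    apply ENNReal.ofReal_le_ofReal
    rw [e0, abs_sub_comm]
    refine le_trans ?_ (le_abs_self _)
    linarith
  have c2 : ENNReal.ofReal (Real.pi - 4 * Real.arctan e) ≤ ENNReal.ofReal |psi e (γ 1) - psi e (γ σ)| := by
    apply ENNReal.ofReal_le_ofReal
    rw [e1]
    refine le_trans ?_ (le_abs_self _)
    linarith
  have hsum : ENNReal.ofReal (2 * Real.pi - 8 * Real.arctan e) ≤
      ENNReal.ofReal (Real.pi - 4 * Real.arctan e) + ENNReal.ofReal (Real.pi - 4 * Real.arctan e) := by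
    rw [show 2 * Real.pi - 8 * Real.arctan e = (Real.pi - 4 * Real.arctan e) +
      (Real.pi - 4 * Real.arctan e) by ring]
    exact ENNReal.ofReal_add_le
  refine hsum.trans ?_
  refine (add_le_add (c1.trans b1) (c2.trans b2)).trans ?_
  unfold gLength
  rw [← restrict_Ioc_eq_restrict_Icc (a := σ) (b := 1),
    ← lintegral_union measurableSet_Ioc ?_]
  · refine lintegral_mono_set ?_
    intro t ht
    rcases ht with ht | ht
    · exact ⟨ht.1, ht.2.trans hτA.1.2⟩
    · exact ⟨hσB.1.1.trans ht.1.le, ht.2⟩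
  · rw [Set.disjoint_left]
    intro t ht ht'
    exact absurd ht'.1 (not_lt.mpr (ht.2.trans hτσ))

theorem gDiam_lower {e : ℝ} (he : 0 < e) :
    ENNReal.ofReal (2 * Real.pi - 8 * Real.arctan e) ≤ gDiam (U e) := by
  let x : Plane := !₂[1, 0]
  let y : Plane := !₂[-1, 0]
  have h1 : gDist (U e) x y ≤ gDiam (U e) := by
    unfold gDiam
    exact le_iSup_of_le x (le_iSup_of_le y le_rfl)
  refine le_trans ?_ h1
  unfold gDist
  refine le_iInf fun γ => le_iInf fun hγ => le_iInf fun h0 => le_iInf fun h1 => ?_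
  apply gLength_lower he hγ <;> simp [h0, h1, x, y]

/-- for every `L < 2π` there is an example with diameter larger than `L` -/
theorem exists_example {L : ℝ} (hL : L < 2 * Real.pi) : ∃ e : ℝ, 0 < e ∧
    ENNReal.ofReal L < gDiam (U e) := by
  set L' := max L 0 with hL'
  have hL2 : L' < 2 * Real.pi := max_lt hL (by positivity)
  have hL0 : 0 ≤ L' := le_max_right _ _
  refine ⟨Real.tan ((2 * Real.pi - L') / 16), Real.tan_pos_of_pos_of_lt_pi_div_two
    (by linarith) (by linarith [Real.pi_pos]), ?_⟩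
  have ht : 0 < Real.tan ((2 * Real.pi - L') / 16) := Real.tan_pos_of_pos_of_lt_pi_div_two
    (by linarith) (by linarith [Real.pi_pos])
  refine lt_of_lt_of_le ?_ (gDiam_lower ht)
  rw [Real.arctan_tan (by linarith [Real.pi_pos]) (by linarith [Real.pi_pos])]
  rw [ENNReal.ofReal_lt_ofReal_iff (by linarith)]
  have := le_max_left L 0
  linarith

end Pool.Agent.Lib.MP_0fb7ac_an
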