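import Pool.Agent.Lib.MP_0fb7ac_an.Example

/-!
Finite area, bounded curvature, and the lower bound for the lengths.
-/

namespace Pool.Agent.Lib.MP_0fb7ac_an

open MeasureTheory Set InnerProductSpace
open scoped Laplacian

theorem e4N_le {e : ℝ} (a b : ℝ) : e ^ 4 * N2 a b ≤ √(M2 (e ^ 8) a b) := by
  apply Real.le_sqrt_of_sq_le
  unfold M2 N2
  nlinarith [sq_nonneg (a ^ 2 - b ^ 2 - 1), sq_nonneg (a * b)]

/-- curvature is bounded -/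
theorem U_curv_bdd {e : ℝ} (he : 0 < e) : ∃ C : ℝ, ∀ x : Plane,
    -((Laplacian.laplacian (U e)) x) ≤ C * Real.exp (2 * U e x) := by
  have hh : 0 < e ^ 8 := by positivity
  have hk : 0 < e ^ 2 := by positivity
  refine ⟨1 + e ^ 2 * (1 + e ^ 2 / e ^ 4) ^ 2 + 2 * e ^ 2 + 1, fun x => ?_⟩
  rw [U_laplacian he, exp_two_U he]
  have hM := M2_pos hh (x 0) (x 1)
  have hq := sqrtM_pos hh (x 0) (x 1)
  have hN := N2_nonneg (x 0) (x 1)
  have hR := R_pos hh hk (x 0) (x 1)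
  have hNq := e4N_le (e := e) (x 0) (x 1)
  set q := √(M2 (e ^ 8) (x 0) (x 1))
  set N := N2 (x 0) (x 1)
  have hNq' : N ≤ q / e ^ 4 := by
    rw [le_div_iff₀ (by positivity)]; linarith
  have hRq : q + e ^ 2 * N ≤ (1 + e ^ 2 / e ^ 4) * q := by
    have : e ^ 2 * N ≤ e ^ 2 * (q / e ^ 4) := by gcongr
    calc q + e ^ 2 * N ≤ q + e ^ 2 * (q / e ^ 4) := by linarith
      _ = _ := by ring
  set R := q + e ^ 2 * N
  -- multiply by q R^2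
  have t1 : 4 * e ^ 8 * N / q ^ 4 ≤ (e ^ 2 * (1 + e ^ 2 / e ^ 4) ^ 2) * (4 * e ^ 2 / (q * R ^ 2)) := by
    rw [div_le_iff₀ (by positivity)]
    have : (e ^ 2 * (1 + e ^ 2 / e ^ 4) ^ 2) * (4 * e ^ 2 / (q * R ^ 2)) * q ^ 4 =
        4 * e ^ 4 * q * ((1 + e ^ 2 / e ^ 4) * q) ^ 2 / R ^ 2 := by
      field_simp
    rw [this, le_div_iff₀ (by positivity)]
    have h1 : R ^ 2 ≤ ((1 + e ^ 2 / e ^ 4) * q) ^ 2 := by gcongr
    have h2 : 4 * e ^ 8 * N ≤ 4 * e ^ 4 * q := by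
      have : 4 * e ^ 4 * (e ^ 4 * N) ≤ 4 * e ^ 4 * q := by gcongr
      linarith
    calc 4 * e ^ 8 * N * R ^ 2 ≤ 4 * e ^ 4 * q * ((1 + e ^ 2 / e ^ 4) * q) ^ 2 := by gcongr
      _ = _ := rfl
  have t2 : (8 * e ^ 8 * N / q ^ 2 + 4 * e ^ 2 * e ^ 8 * N ^ 2 / q ^ 3) / R ^ 2 ≤
      (2 * e ^ 2 + 1) * (4 * e ^ 2 / (q * R ^ 2)) := by
    have : (2 * e ^ 2 + 1) * (4 * e ^ 2 / (q * R ^ 2)) =
      (8 * e ^ 4 / q + 4 * e ^ 2 / q) / R ^ 2 := by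
      field_simp
      ring
    rw [this]
    have h1 : 8 * e ^ 8 * N / q ^ 2 ≤ 8 * e ^ 4 / q := by
      rw [div_le_div_iff₀ (by positivity) (by positivity)]
      have : 8 * e ^ 4 * q * (e ^ 4 * N) ≤ 8 * e ^ 4 * q * q := by gcongr
      linarith
    have h2 : 4 * e ^ 2 * e ^ 8 * N ^ 2 / q ^ 3 ≤ 4 * e ^ 2 / q := by
      rw [div_le_div_iff₀ (by positivity) (by positivity)]
      have : 4 * e ^ 2 * q * (e ^ 4 * N) ^ 2 ≤ 4 * e ^ 2 * q * q ^ 2 := by gcongr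
      calc 4 * e ^ 2 * e ^ 8 * N ^ 2 * q = 4 * e ^ 2 * q * (e ^ 4 * N) ^ 2 := by ring
        _ ≤ 4 * e ^ 2 * q * q ^ 2 := this
        _ = _ := by ring
    gcongr
  have e1 : (1 + e ^ 2 * (1 + e ^ 2 / e ^ 4) ^ 2 + 2 * e ^ 2 + 1) * (4 * e ^ 2 / (q * R ^ 2)) =
    (e ^ 2 * (1 + e ^ 2 / e ^ 4) ^ 2) * (4 * e ^ 2 / (q * R ^ 2)) +
    (2 * e ^ 2 + 1) * (4 * e ^ 2 / (q * R ^ 2)) + 4 * e ^ 2 / (q * R ^ 2) := by ring
  rw [e1]
  linarith

/-- lower growth bound of `√M` -/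
theorem sqrtM_growth {e : ℝ} (he : 0 < e) : ∃ c : ℝ, 0 < c ∧ ∀ x : Plane,
    c * (1 + ‖x‖) ^ 2 ≤ √(M2 (e ^ 8) (x 0) (x 1)) := by
  set h := e ^ 8 with hh_def
  have hh : 0 < h := by positivity
  set c' := h / (2 + h) with hc'
  have hc'0 : 0 < c' := by positivity
  refine ⟨√(c' / 8), by positivity, fun x => ?_⟩
  have hnorm : ‖x‖ ^ 2 = N2 (x 0) (x 1) := by
    rw [EuclideanSpace.norm_sq_eq]
    simp [N2, Fin.sum_univ_two]
  apply Real.le_sqrt_of_sq_le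
  have h1 : (√(c' / 8) * (1 + ‖x‖) ^ 2) ^ 2 = c' / 8 * (1 + ‖x‖) ^ 4 := by
    rw [mul_pow, Real.sq_sqrt (by positivity)]; ring
  rw [h1]
  have h2 : (1 + ‖x‖) ^ 4 ≤ 8 * (1 + (‖x‖ ^ 2) ^ 2) := by
    nlinarith [sq_nonneg (‖x‖ - 1), sq_nonneg (‖x‖ + 1), sq_nonneg (‖x‖ ^ 2 - 1), norm_nonneg x,
      mul_nonneg (norm_nonneg x) (sq_nonneg (‖x‖ - 1)), sq_nonneg (‖x‖ ^ 2 - ‖x‖),
      mul_nonneg (sq_nonneg ‖x‖) (sq_nonneg (‖x‖ - 1))]
  rw [hnorm] at h2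
  have h3 : c' * (1 + N2 (x 0) (x 1) ^ 2) ≤ M2 h (x 0) (x 1) := by
    have h4 : (1 + h) * N2 (x 0) (x 1) ^ 2 - 2 * N2 (x 0) (x 1) + 1 ≤ M2 h (x 0) (x 1) := by
      unfold N2 M2
      nlinarith [sq_nonneg (x 1)]
    refine le_trans ?_ h4
    rw [hc', div_mul_eq_mul_div, div_le_iff₀ (by positivity)]
    nlinarith [sq_nonneg ((2 + h) * N2 (x 0) (x 1) - 2), sq_nonneg (N2 (x 0) (x 1)), mul_pos hh hh,
      mul_nonneg (mul_nonneg hh.le hh.le) (sq_nonneg (N2 (x 0) (x 1)))]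
  calc c' / 8 * (1 + ‖x‖) ^ 4 ≤ c' / 8 * (8 * (1 + N2 (x 0) (x 1) ^ 2)) := by gcongr
    _ = c' * (1 + N2 (x 0) (x 1) ^ 2) := by ring
    _ ≤ _ := h3

/-- finite area -/
theorem U_integrable {e : ℝ} (he : 0 < e) :
    Integrable (fun x : Plane => Real.exp (2 * U e x)) := by
  have hh : 0 < e ^ 8 := by positivity
  have hk : 0 < e ^ 2 := by positivity
  obtain ⟨c, hc, hgrow⟩ := sqrtM_growth he
  have hbase : Integrable (fun x : Plane => (1 + ‖x‖) ^ (-(6 : ℝ))) := by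
    apply integrable_one_add_norm
    simp
    norm_num
  refine (hbase.const_mul (4 * e ^ 2 / c ^ 3)).mono' ?_ ?_
  · have : Continuous (U e) := (U_contDiff he (n := 0)).continuous
    exact (by fun_prop : Continuous (fun x : Plane => Real.exp (2 * U e x))).aestronglyMeasurable
  · refine Filter.Eventually.of_forall fun x => ?_
    rw [Real.norm_of_nonneg (Real.exp_pos _).le, exp_two_U he]
    have hM := M2_pos hh (x 0) (x 1)
    have hq := sqrtM_pos hh (x 0) (x 1)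
    have hN := N2_nonneg (x 0) (x 1)
    have hg := hgrow x
    set q := √(M2 (e ^ 8) (x 0) (x 1))
    set N := N2 (x 0) (x 1)
    have hx : 0 < 1 + ‖x‖ := by positivity
    have h1 : (1 + ‖x‖) ^ (-(6 : ℝ)) = 1 / (1 + ‖x‖) ^ 6 := by
      rw [Real.rpow_neg hx.le, one_div]
      norm_cast
    rw [h1]
    have h2 : c ^ 3 * (1 + ‖x‖) ^ 6 ≤ q * (q + e ^ 2 * N) ^ 2 := by
      calc c ^ 3 * (1 + ‖x‖) ^ 6 = (c * (1 + ‖x‖) ^ 2) * (c * (1 + ‖x‖) ^ 2) ^ 2 := by ring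
        _ ≤ q * (q + e ^ 2 * N) ^ 2 := by
          gcongr
          have : 0 ≤ e ^ 2 * N := by positivity
          linarith
    have h3 : 4 * e ^ 2 / c ^ 3 * (1 / (1 + ‖x‖) ^ 6) = 4 * e ^ 2 / (c ^ 3 * (1 + ‖x‖) ^ 6) := by
      field_simp
    rw [h3]
    gcongr

/-- one variable bound -/
theorem psi_deriv {e m n m' n' v : ℝ} {mf nf : ℝ → ℝ} {t : ℝ} (he : 0 < e)
    (hm : 0 < m) (hn : 0 < n) (hmf : mf t = m) (hnf : nf t = n)
    (dm : HasDerivAt mf m' t) (dn : HasDerivAt nf n' t) (hv : 0 ≤ v)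
    (hb : (n' * √m - n * m' / (2 * √m)) ^ 2 ≤ 4 * n * v ^ 2) :
    ∃ f', HasDerivAt (fun s => 2 * Real.arctan (e * √(nf s / √(mf s)))) f' t ∧
      |f'| ≤ 2 * e / (√(√m) * (√m + e ^ 2 * n)) * v := by
  subst hmf hnf
  set q := √(mf t) with hq_def
  have hq : 0 < q := Real.sqrt_pos.mpr hm
  have hr : 0 < nf t / q := by positivity
  have h1 := dm.sqrt hm.ne'
  have h2 := dn.div h1 hq.ne'
  have h3 := h2.sqrt hr.ne'
  have h4 := ((h3.const_mul e).arctan).const_mul 2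
  refine ⟨_, h4, ?_⟩
  simp only [Pi.div_apply]
  rw [← hq_def]
  set r := √(nf t / q) with hr_def
  have hr0 : 0 < r := Real.sqrt_pos.mpr hr
  have hrr : r ^ 2 = nf t / q := Real.sq_sqrt hr.le
  set s := √q with hs_def
  have hs0 : 0 < s := Real.sqrt_pos.mpr hq
  have hss : s ^ 2 = q := Real.sq_sqrt hq.le
  have hnr : nf t = r ^ 2 * q := by rw [hrr]; field_simp
  -- the absolute value of the numerator
  have h5 : |n' * q - nf t * m' / (2 * q)| ≤ 2 * (r * s) * v := by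
    apply abs_le_of_sq_le_sq _ (by positivity)
    calc (n' * q - nf t * m' / (2 * q)) ^ 2 ≤ 4 * nf t * v ^ 2 := hb
      _ = (2 * (r * s) * v) ^ 2 := by rw [hnr, ← hss]; ring
  have h6 : 2 * (1 / (1 + (e * r) ^ 2) * (e * ((n' * q - nf t * (m' / (2 * q))) / q ^ 2 / (2 * r))))
      = e / ((1 + e ^ 2 * r ^ 2) * q ^ 2 * r) * (n' * q - nf t * m' / (2 * q)) := by
    field_simp
  rw [h6, abs_mul, abs_of_pos (by positivity)]
  calc e / ((1 + e ^ 2 * r ^ 2) * q ^ 2 * r) * |n' * q - nf t * m' / (2 * q)|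
      ≤ e / ((1 + e ^ 2 * r ^ 2) * q ^ 2 * r) * (2 * (r * s) * v) := by gcongr
    _ = 2 * e / (s * (q + e ^ 2 * nf t)) * v := by
      rw [hnr, ← hss]
      field_simp

end Pool.Agent.Lib.MP_0fb7ac_an
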